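import Pool.Agent.Y728.CB.Chk

/-!
# The rotation on 324 partnerships
-/

set_option autoImplicit false

namespace Pool.Agent.Y728.CB

/-- mates -/
def P323 : ℕ := 0x990880f40310ab0851000190100cd03b08c09b05512511900310a03e0cf1220e20d61070fc0bc0f00c001c1341130ad12e0e400f08a03905e0a10b30aa13302e0130070220a312403a0c40410690d008e0ee06c13103506312b0fe10410507e04e0d113c03d10605112a0b20ce01701a00b04902a1400ae0370941280af10c08905b0ba0a706009a09d0210361210b412d0780160ac01e0bd01f0340930d201507c12c02b05f0120d910110e12f0fa1390450a905708f0010a802409c1110a60480bf1270c106f0dd1290730eb0670180290260590e311b0fb0250a20ef0f31230df13e11a0cb0c70ea0c308d0421140b011c00e09205c0e70c51360e814203208103c0080f10da09f0270380c910d0a513706511f0ed14100a08213d02f05608609706b0201030060d70710440700e100502305a04c0bb00407b0790be04b06a10b08006d10f02d0b905408b03f10804f00d0e90d411d05809e0ec0750b505d0ca0831350660430110fd00c06210204707406e0330f60c204d01b0cc07a0530a41100090641300ff09613811211e0900f20e51090db04a09813f0140841180680020d50f50b701d0910b60b10c60761150e607f0dc0de0281260460f813b0b80f90e00d80301170d305213a1200a00610500f708704009511607d07707213202c0c8000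

/-- inverse of the differences -/
def D323 : ℕ := 0x1050c106d08605d04d0d910607907b02812e09f0b013405312406606200308009704a0a50101330750300c310c0c70dd0190cb06e12b06408b1310740c502c0460fa08312a0e31010eb00f0df00703107a04012801c0c906813c12110e0130ef05209e0ea0500f303b0da0bb0fb0e712d1401110e80be02203e0b907606108412c00b09002e0960d70b50f103907f12f0170a40550ed01a09812711b0e109103a13912907203511a1140770ca0410d412307d02a0160c211c00108702110d01503d01201e05e10301f0cc0370e90880850b10950b704e0b60ec0a013e03611f04905108c02b09913603406906310b0b80240c601806c10810f0db09b1420d51370fd0f608a0e50ab00e05b02610202900802513d1410600f20450dc07e11d0de0d30ff0d808e0e600a0c80a10480e00f50060ad05f1100570050a30aa1090040bc0cd1120270780b30c00320f80891350420f90cf02011e09405907c03c1180380f70d602f00d02306713011506f09a0c40f40e209d0b20730931380ae00c0a705c0110af1170d00e410002d08f1260f000904413f1160ac1200ba0d10b40fc0560ce01b00209c04c10a06503f10704b0a913b0bd0a80ee0a601405a11913a08d03308106b13204f0541130431250a209212201d0710700fe0d204705808206a0bf104000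

/-- inverse of the sums -/
def T323 : ℕ := 0x1c00000004903500003d00000000000002200000300005f08d09200000f07306f00000001303700000000000000000000005706702a00000700003600000008100012500000000001a04501703405912200000004811908202100000000000000b00002b00000000001e01f05c10010a0000160001130000000f406510700001507106b0240700000000420120000fc00000002900000000002600000005600006a0250f000000003c00001805a0000000e20000320010380001040000000cd0e40fe04c0d60440000000cf05404b0270ee00005800002f00004f00000000e0000000000000000000000ab0000c003f0bc0000000200000080000d000002309900004302d0470000c400a0000d109b0ad0000b30000000000000880ce0000060000aa08c0850000330050000a10000000000040000a300000000000000000d0000000000b20000d200008a0000000110ba01b0000000ae00000c0af00000008e0bd0000000b40000000000000000a70000000000000090ac05500001d01400009409d00009a07e0bf00000000000005e00000006906c0890000a903b0000020310a803e0930000630000a600000000000000000000009c00000000000000000000007808f03900000001907c0a204104e00005100003a00001006000005b02e000000000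

/-- signs -/
def E323 : ℕ := 0x3db6625f5ebf32ad8af8870383cf78ee49561b4f2a7b1186185cfe2dd154976205480b7a248776642

set_option maxRecDepth 100000 in
theorem chk323 : chk 323 P323 D323 T323 E323 = true := by decide +kernel

theorem rot323 : ∃ (R : Fin 323 → Fin (323 + 1) → Fin 323) (S : Fin 323 → Fin (323 + 1) → ℤ),
    Rot R S := rot_of_chk (by norm_num) chk323

end Pool.Agent.Y728.CB
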