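import Pool.Agent.Y728.CB.Core

/-!
# From the packed data to a rotation on `ZMod v`
-/

set_option autoImplicit false

namespace Pool.Agent.Y728.CB

open Finset

lemma beqt {a b : ℕ} : Nat.beq a b = true ↔ a = b :=
  ⟨Nat.eq_of_beq_eq_true, fun h => by rw [h]; exact Nat.beq_refl b⟩

theorem rot_of_chk {v P D T E : ℕ} (hv : 1 < v) (h : chk v P D T E = true) :
    ∃ (R : Fin v → Fin (v + 1) → Fin v) (S : Fin v → Fin (v + 1) → ℤ), Rot R S := by
  have : NeZero v := ⟨by omega⟩
  unfold chk at h
  simp only [Bool.and_eq_true, beqt] at h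
  obtain ⟨⟨⟨⟨h0, hE⟩, hB⟩, hL⟩, hA⟩ := h
  have hL' := allLt_iff hL
  have hA' := allLt_iff hA
  simp only [Bool.and_eq_true, Bool.or_eq_true, beqt, Nat.ble_eq] at hL' hA'
  set m : ZMod v → ZMod v := fun z => ((ent P z.val : ℕ) : ZMod v) with hm
  set e : ZMod v → ℤ := fun z => sg E z.val with he
  have val_lt : ∀ z : ZMod v, z.val < v := fun z => ZMod.val_lt z
  have mval : ∀ z : ZMod v, (m z).val = ent P z.val := fun z =>
    ZMod.val_cast_of_lt (hL' _ (val_lt z)).1.1.1.1
  have sumv : ∀ f : ℕ → ℤ, ∑ z : ZMod v, f z.val = ∑ i ∈ range v, f i := by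
    intro f
    refine sum_bij (fun z _ => z.val) (fun z _ => mem_range.2 (val_lt z))
      (fun z _ w _ h => ZMod.val_injective v h) (fun i hi => ⟨(i : ZMod v), mem_univ _, ?_⟩)
      (fun z _ => rfl)
    exact ZMod.val_cast_of_lt (mem_range.1 hi)
  have e1 : ∀ z, e z = 1 ∨ e z = -1 := by
    intro z
    simp only [he, sg]
    rcases bt_cases E z.val with h | h <;> rw [h] <;> simp
  have hrot := rot_of (G := ZMod v) m e ?_ ?_ ?_ ?_ e1 ?_ ?_ ?_ ?_
  · have c1 : Fin v ≃ ZMod v := (ZMod.finEquiv v).toEquiv
    have c2 : Fin (v + 1) ≃ Option (ZMod v) :=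
      Fintype.equivOfCardEq (by rw [Fintype.card_option, ZMod.card, Fintype.card_fin])
    exact ⟨_, _, hrot.transport c1 c2 c1.symm⟩
  · apply ZMod.val_injective v
    rw [mval, ZMod.val_zero, h0]
  · intro z
    apply ZMod.val_injective v
    rw [mval, mval]
    exact (hL' _ (val_lt z)).1.1.1.2
  · have key : ∀ z : ZMod v, (m z - z).val = (ent P z.val + (v - z.val)) % v := by
      intro z
      have h1 : m z - z = ((ent P z.val + (v - z.val) : ℕ) : ZMod v) := by
        rw [Nat.cast_add, Nat.cast_sub (val_lt z).le, ZMod.natCast_self, ZMod.natCast_zmod_val]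
        simp only [hm]
        ring
      rw [h1, ZMod.val_natCast]
    intro z w hzw
    have h1 := congrArg ZMod.val hzw
    simp only [key] at h1
    have h2 := (hL' _ (val_lt z)).1.1.2
    have h3 := (hL' _ (val_lt w)).1.1.2
    rw [h1, h3] at h2
    exact (ZMod.val_injective v h2).symm
  · have key : ∀ z : ZMod v, (z + m z).val = (z.val + ent P z.val) % v := by
      intro z
      rw [ZMod.val_add, mval]
    intro z w hzw
    have h1 := congrArg ZMod.val hzw
    simp only [key] at h1
    have h2 := (hL' _ (val_lt z)).1.2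
    have h3 := (hL' _ (val_lt w)).1.2
    rw [← h1] at h3
    have h6 := (hL' _ (val_lt z)).1.1.1.2
    have h7 := (hL' _ (val_lt w)).1.1.1.2
    rcases h2 with ⟨h4, -⟩ | ⟨h4, -⟩ <;> rcases h3 with ⟨h5, -⟩ | ⟨h5, -⟩
    · left; exact ZMod.val_injective v (h5.symm.trans h4)
    · right
      apply ZMod.val_injective v
      rw [mval]
      have h8 : ent P w.val = z.val := h5.symm.trans h4
      rw [← h8]
      exact h7.symm
    · right
      apply ZMod.val_injective v
      rw [mval]
      exact h5.symm.trans h4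
    · left
      apply ZMod.val_injective v
      have h8 : ent P w.val = ent P z.val := h5.symm.trans h4
      rw [← h7, h8, h6]
  · simp only [he, sg, ZMod.val_zero, hE]
    simp
  · intro z hz
    have hz' : z.val ≠ 0 := fun h => hz ((ZMod.val_eq_zero z).1 h)
    have h1 := (hL' _ (val_lt z)).2.resolve_left hz'
    simp only [he, sg, mval]
    have h2 : ((bt E (ent P z.val) : ℤ) + bt E z.val) = 1 := by exact_mod_cast h1
    linarith
  · simp only [he]
    rw [sumv (fun i => sg E i), sum_cb]
    have : (2 * (cb E v : ℤ) + 1) = v := by exact_mod_cast hB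
    linarith
  · have key : ∀ d : ZMod v, d ≠ 0 → d.val ≤ v / 2 → ∑ z, e z * e (z + d) = -1 := by
      intro d hd hdv
      have hd' : d.val ≠ 0 := fun h => hd ((ZMod.val_eq_zero d).1 h)
      have h1 := hA' (d.val - 1) (by omega)
      rw [show d.val - 1 + 1 = d.val by omega] at h1
      have h2 : ∀ z : ZMod v, e z * e (z + d) = sg E z.val * sg E ((z.val + d.val) % v) := by
        intro z
        simp only [he]
        rw [ZMod.val_add]
      rw [sum_congr rfl (fun z _ => h2 z), sumv (fun i => sg E i * sg E ((i + d.val) % v)), sum_cn]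
      have : (2 * (cn E v d.val v : ℤ)) = v + 1 := by exact_mod_cast h1
      linarith
    intro d hd
    rcases le_or_gt d.val (v / 2) with h | h
    · exact key d hd h
    · have h1 : (-d).val = v - d.val := by
        have : NeZero d := ⟨hd⟩
        exact ZMod.val_neg_of_ne_zero d
      have h2 := key (-d) (neg_ne_zero.2 hd) (by rw [h1]; omega)
      rw [← h2, ← Equiv.sum_comp (Equiv.addRight d) (fun z => e z * e (z + -d))]
      refine sum_congr rfl fun z _ => ?_
      simp only [Equiv.coe_addRight]
      rw [add_neg_cancel_right, mul_comm]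

end Pool.Agent.Y728.CB
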