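import Mathlib

/-!
# Complete balanced Howell rotations from balanced strong starters
-/

set_option autoImplicit false

namespace Pool.Agent.Y728.CB

open Finset

/-- the conditions with arbitrary finite index types: rows (boards) `ι`, columns (partnerships) `κ`,
rounds `ρ` -/
structure Rot {ι κ ρ : Type} [Fintype κ] [DecidableEq ι] (R : ι → κ → ρ) (S : ι → κ → ℤ) :
    Prop where
  sgn : ∀ i j, S i j = 1 ∨ S i j = -1
  row : ∀ i, ∑ j, S i j = 0
  orth : ∀ i i', i ≠ i' → ∑ j, S i j * S i' j = 0
  col : ∀ j, Function.Bijective fun i => R i j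
  meet : ∀ j k, j ≠ k → (∃! i, R i j = R i k) ∧ ∀ i, R i j = R i k → S i j = -S i k

lemma Rot.transport {ι κ ρ ι' κ' ρ' : Type} [Fintype κ] [DecidableEq ι] [Fintype κ']
    [DecidableEq ι'] {R : ι → κ → ρ} {S : ι → κ → ℤ} (h : Rot R S) (a : ι' ≃ ι) (b : κ' ≃ κ)
    (c : ρ ≃ ρ') : Rot (fun i j => c (R (a i) (b j))) (fun i j => S (a i) (b j)) where
  sgn i j := h.sgn _ _
  row i := by rw [Equiv.sum_comp b (fun j => S (a i) j)]; exact h.row _
  orth i i' hi := by
    rw [Equiv.sum_comp b (fun j => S (a i) j * S (a i') j)]
    exact h.orth _ _ (fun h' => hi (a.injective h'))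
  col j := c.bijective.comp ((h.col (b j)).comp a.bijective)
  meet j k hjk := by
    obtain ⟨⟨i, hi, hu⟩, h2⟩ := h.meet (b j) (b k) (fun h' => hjk (b.injective h'))
    refine ⟨⟨a.symm i, ?_, ?_⟩, fun i hi => h2 _ (c.injective hi)⟩
    · simp only [Equiv.apply_symm_apply]
      rw [hi]
    · intro i' hi'
      have := hu (a i') (c.injective hi')
      rw [← this, Equiv.symm_apply_apply]

/-- the rotation of a balanced strong starter in an abelian group `G` of odd order: `m` is the
mate, `e` the sign -/
theorem rot_of {G : Type} [AddCommGroup G] [Fintype G] [DecidableEq G] (m : G → G) (e : G → ℤ)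
    (m0 : m 0 = 0) (mm : ∀ z, m (m z) = z) (hd : Function.Injective fun z => m z - z)
    (hs : ∀ z w, z + m z = w + m w → w = z ∨ w = m z)
    (he : ∀ z, e z = 1 ∨ e z = -1) (e0 : e 0 = -1) (em : ∀ z, z ≠ 0 → e (m z) = -e z)
    (es : ∑ z, e z = -1) (ea : ∀ d, d ≠ 0 → ∑ z, e z * e (z + d) = -1) :
    Rot (ι := G) (κ := Option G) (ρ := G)
      (fun b j => j.elim b fun j => j + m (j - b)) (fun b j => j.elim 1 fun j => e (j - b)) where
  sgn i j := by
    cases j with
    | none => exact Or.inl rfl
    | some j => exact he _
  row i := by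
    rw [Fintype.sum_option]
    simp only [Option.elim_none, Option.elim_some]
    rw [show ∑ x, e (x - i) = ∑ x, e x from Equiv.sum_comp (Equiv.subRight i) e, es]
    norm_num
  orth i i' hi := by
    rw [Fintype.sum_option]
    simp only [Option.elim_none, Option.elim_some]
    have h1 : ∑ x, e (x - i) * e (x - i') = ∑ z, e z * e (z + (i - i')) := by
      rw [← Equiv.sum_comp (Equiv.subRight i) (fun z => e z * e (z + (i - i')))]
      refine sum_congr rfl fun x _ => ?_
      simp only [Equiv.subRight_apply]
      rw [show x - i + (i - i') = x - i' by abel]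
    rw [h1, ea _ (sub_ne_zero.2 hi)]
    norm_num
  col j := by
    cases j with
    | none => exact Function.bijective_id
    | some j =>
      simp only [Option.elim_some]
      have hm : Function.Injective m := Function.LeftInverse.injective mm
      refine Function.Injective.bijective_of_finite fun b b' h => ?_
      have := hm (add_left_cancel h)
      exact sub_right_injective this
  meet j k hjk := by
    have hb : Function.Bijective fun z => m z - z := Function.Injective.bijective_of_finite hd
    have key : ∀ j : G, (∃! i, i = j + m (j - i)) ∧ ∀ i, i = j + m (j - i) → e (j - i) = -1 := by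
      intro j
      have h0 : ∀ i, i = j + m (j - i) ↔ i = j := by
        intro i
        constructor
        · intro h
          have h1 : (0 : G) + m 0 = (j - i) + m (j - i) := by
            rw [m0, add_zero]
            have : j - i + m (j - i) = (j + m (j - i)) - i := by abel
            rw [this, ← h, sub_self]
          rcases hs _ _ h1 with h2 | h2
          · exact (sub_eq_zero.1 h2).symm
          · rw [m0] at h2
            exact (sub_eq_zero.1 h2).symm
        · rintro rfl
          rw [sub_self, m0, add_zero]
      refine ⟨⟨j, (h0 j).2 rfl, fun i hi => (h0 i).1 hi⟩, fun i hi => ?_⟩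
      rw [(h0 i).1 hi, sub_self, e0]
    cases j with
    | none =>
      cases k with
      | none => exact absurd rfl hjk
      | some k =>
        simp only [Option.elim_none, Option.elim_some]
        obtain ⟨h1, h2⟩ := key k
        refine ⟨h1, fun i hi => ?_⟩
        rw [h2 i hi]; norm_num
    | some j =>
      cases k with
      | none =>
        simp only [Option.elim_none, Option.elim_some]
        obtain ⟨⟨i, hi, hu⟩, h2⟩ := key j
        exact ⟨⟨i, hi.symm, fun i' hi' => hu i' hi'.symm⟩, fun i hi => h2 i hi.symm⟩
      | some k =>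
        simp only [Option.elim_some]
        have hjk' : j ≠ k := fun h => hjk (congrArg some h)
        have h0 : ∀ i, j + m (j - i) = k + m (k - i) ↔ m (j - i) - (j - i) = k - j := by
          intro i
          constructor
          · intro h
            have h1 : (j - i) + m (j - i) = (k - i) + m (k - i) := by
              have e1 : j - i + m (j - i) = (j + m (j - i)) - i := by abel
              have e2 : k - i + m (k - i) = (k + m (k - i)) - i := by abel
              rw [e1, e2, h]
            rcases hs _ _ h1 with h2 | h2
            · exact absurd (sub_left_injective h2).symm hjk'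
            · rw [← h2]; abel
          · intro h
            have h2 : m (j - i) = k - i := by
              have : m (j - i) = (m (j - i) - (j - i)) + (j - i) := by abel
              rw [this, h]; abel
            rw [← h2, mm, h2]; abel
        have hne : ∀ i, j + m (j - i) = k + m (k - i) → e (j - i) = -e (k - i) := by
          intro i hi
          have h3 := (h0 i).1 hi
          have h2 : m (j - i) = k - i := by
            have : m (j - i) = (m (j - i) - (j - i)) + (j - i) := by abel
            rw [this, h3]; abel
          have h4 : j - i ≠ 0 := by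
            intro h5
            rw [h5, m0, sub_zero] at h3
            exact hjk' (sub_eq_zero.1 h3.symm).symm
          rw [← h2, em _ h4, neg_neg]
        obtain ⟨z, hz⟩ := hb.2 (k - j)
        refine ⟨⟨j - z, ?_, ?_⟩, hne⟩
        · refine (h0 _).2 ?_
          rw [sub_sub_cancel]
          exact hz
        · intro i hi
          have h3 := (h0 i).1 hi
          have h4 : j - i = z := hd (h3.trans hz.symm)
          rw [← h4, sub_sub_cancel]

/-! ### Packed data -/

/-- all `i < n` -/
noncomputable def allLt (n : ℕ) (p : ℕ → Bool) : Bool :=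
  Nat.rec (motive := fun _ => Bool) true (fun k ih => cond (p k) ih false) n

lemma allLt_iff {n : ℕ} {p : ℕ → Bool} (h : allLt n p = true) : ∀ i < n, p i = true := by
  induction n with
  | zero => intro i hi; omega
  | succ n ih =>
    have h' : cond (p n) (allLt n p) false = true := h
    intro i hi
    cases hp : p n with
    | false => rw [hp] at h'; simp at h'
    | true =>
      rw [hp] at h'
      rcases Nat.lt_succ_iff_lt_or_eq.1 hi with h1 | rfl
      · exact ih h' i h1
      · exact hp

/-- number of `i < k` at which the bits `i` and `i + d mod v` of `E` differ -/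
noncomputable def cn (E v d n : ℕ) : ℕ :=
  Nat.rec (motive := fun _ => ℕ) 0 (fun k ih => Nat.add ih (Nat.mod (Nat.add (Nat.shiftRight E k)
    (Nat.shiftRight E (Nat.mod (Nat.add k d) v))) 2)) n

/-- number of bits `i < k` -/
noncomputable def cb (E n : ℕ) : ℕ :=
  Nat.rec (motive := fun _ => ℕ) 0 (fun k ih => Nat.add ih (Nat.mod (Nat.shiftRight E k) 2)) n

/-- the entry `z` of the packed list `P` -/
def ent (P z : ℕ) : ℕ := Nat.mod (Nat.shiftRight P (Nat.mul 12 z)) 4096

/-- the bit `i` of `E` -/
def bt (E i : ℕ) : ℕ := Nat.mod (Nat.shiftRight E i) 2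

/-- sign -/
def sg (E i : ℕ) : ℤ := 2 * (bt E i : ℤ) - 1

lemma bt_cases (E i : ℕ) : bt E i = 0 ∨ bt E i = 1 := by
  have : bt E i < 2 := Nat.mod_lt _ (by norm_num)
  omega

lemma cn_succ (E v d k : ℕ) : cn E v d (k + 1) = cn E v d k + (bt E k + bt E ((k + d) % v)) % 2 := by
  have h : cn E v d (k + 1) = cn E v d k + (E >>> k + E >>> ((k + d) % v)) % 2 := rfl
  rw [h]
  have h1 : bt E k = (E >>> k) % 2 := rfl
  have h2 : bt E ((k + d) % v) = (E >>> ((k + d) % v)) % 2 := rfl
  rw [h1, h2]
  omega

lemma cb_succ (E k : ℕ) : cb E (k + 1) = cb E k + bt E k := rfl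

lemma sum_cn (E v d k : ℕ) :
    ∑ i ∈ range k, sg E i * sg E ((i + d) % v) = k - 2 * (cn E v d k : ℤ) := by
  induction k with
  | zero => simp [cn]
  | succ k ih =>
    rw [sum_range_succ, ih, cn_succ]
    unfold sg
    rcases bt_cases E k with h1 | h1 <;> rcases bt_cases E ((k + d) % v) with h2 | h2 <;>
      rw [h1, h2] <;> push_cast <;> norm_num <;> ring

lemma sum_cb (E k : ℕ) : ∑ i ∈ range k, sg E i = 2 * (cb E k : ℤ) - k := by
  induction k with
  | zero => simp [cb]
  | succ k ih =>
    rw [sum_range_succ, ih, cb_succ]
    unfold sg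
    push_cast
    ring

/-- the check -/
noncomputable def chk (v P D T E : ℕ) : Bool :=
  Nat.beq (ent P 0) 0 && Nat.beq (bt E 0) 0 && Nat.beq (2 * cb E v + 1) v &&
  allLt v (fun z => Nat.ble (ent P z + 1) v && Nat.beq (ent P (ent P z)) z &&
    Nat.beq (ent D ((ent P z + (v - z)) % v)) z &&
    (Nat.beq (ent T ((z + ent P z) % v)) z && Nat.ble z (ent P z) ||
      Nat.beq (ent T ((z + ent P z) % v)) (ent P z) && Nat.ble (ent P z) z) &&
    (Nat.beq z 0 || Nat.beq (bt E (ent P z) + bt E z) 1)) &&
  allLt (v / 2) (fun d => Nat.beq (2 * cn E v (d + 1) v) (v + 1))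

end Pool.Agent.Y728.CB
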