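import Pool.Agent.Y728.CB.Chk

/-!
# The rotation on 36 partnerships
-/

set_option autoImplicit false

namespace Pool.Agent.Y728.CB

/-- mates -/
def P35 : ℕ := 0x701c01900501301002100601402000e00800a00201a01e00100d01d00c01801100f00901600b01702201b01f003004015012000

/-- inverse of the differences -/
def D35 : ℕ := 0x400b00f01102101a02000700501801e01601d00601700201200101500801b01000a01300e01f02201901401c00d00c009003000

/-- inverse of the sums -/
def T35 : ℕ := 0x600a00800d00000000c01c00000000201900000900100000000000001300000001401000000000300700000000e000005000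

/-- signs -/
def E35 : ℕ := 0x7046f5368

set_option maxRecDepth 100000 in
theorem chk35 : chk 35 P35 D35 T35 E35 = true := by decide +kernel

theorem rot35 : ∃ (R : Fin 35 → Fin (35 + 1) → Fin 35) (S : Fin 35 → Fin (35 + 1) → ℤ),
    Rot R S := rot_of_chk (by norm_num) chk35

end Pool.Agent.Y728.CB
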