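import Pool.Agent.Y728.CB.Core

/-!
# Rotations from finite fields of characteristic two
-/

set_option autoImplicit false

namespace Pool.Agent.Y728.CB

open Finset

/-- a function on a field of characteristic two giving an orthogonal mate of the starter
`{x, x + 1}` -/
structure PA {F : Type} [Field F] (r : F → F) : Prop where
  ne : ∀ x, r x ≠ 0
  per : ∀ x, r (x + 1) = r x
  inj : ∀ x y, r x = r y → y = x ∨ y = x + 1
  perm : ∀ x y, x ≠ 0 → y ≠ 0 → r x / x = r y / y → x = y

section Rotation

variable {F : Type} [Field F] [Fintype F] [DecidableEq F] [CharP F 2]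

omit [DecidableEq F] [CharP F 2] in
lemma sum_sgn {φ : F →+ ZMod 2} (h1 : φ 1 = 1) : ∑ z, (if φ z = 0 then (1 : ℤ) else -1) = 0 := by
  have h2 : ∀ z, (if φ (z + 1) = 0 then (1 : ℤ) else -1) = -(if φ z = 0 then (1 : ℤ) else -1) := by
    intro z
    rw [map_add, h1]
    generalize φ z = a
    revert a
    decide
  have h3 : ∑ z, (if φ z = 0 then (1 : ℤ) else -1) = -∑ z, (if φ z = 0 then (1 : ℤ) else -1) := by
    conv_lhs => rw [← Equiv.sum_comp (Equiv.addRight (1 : F))
      (fun z => if φ z = 0 then (1 : ℤ) else -1)]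
    rw [← sum_neg_distrib]
    exact sum_congr rfl fun z _ => h2 z
  linarith

theorem rot_field {r : F → F} (hr : PA r) {φ : F →+ ZMod 2} (h1 : φ 1 = 1) :
    Rot (ι := Fˣ) (κ := F) (ρ := Fˣ)
      (fun b j => Units.mk0 ((b : F) * r (j / b)) (mul_ne_zero b.ne_zero (hr.ne _)))
      (fun b j => if φ (j / b) = 0 then 1 else -1) where
  sgn i j := by split <;> simp
  row i := by
    have h3 := (mulRight_bijective₀ ((i : F)⁻¹) (inv_ne_zero i.ne_zero)).sum_comp
      (fun z => if φ z = 0 then (1 : ℤ) else -1)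
    simp only [div_eq_mul_inv]
    exact h3.trans (sum_sgn h1)
  orth i i' hi := by
    have hc : ((i : F)⁻¹ + (i' : F)⁻¹) ≠ 0 := by
      intro h
      rw [CharTwo.add_eq_zero] at h
      exact hi (Units.ext (inv_injective h))
    have h2 : ∀ j : F, (if φ (j / i) = 0 then (1 : ℤ) else -1) * (if φ (j / i') = 0 then 1 else -1)
        = if φ (j * ((i : F)⁻¹ + (i' : F)⁻¹)) = 0 then 1 else -1 := by
      intro j
      rw [mul_add, map_add, div_eq_mul_inv, div_eq_mul_inv]
      generalize φ (j * (i : F)⁻¹) = a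
      generalize φ (j * (i' : F)⁻¹) = b
      revert a b
      decide
    rw [sum_congr rfl fun j _ => h2 j]
    have h3 := (mulRight_bijective₀ ((i : F)⁻¹ + (i' : F)⁻¹) hc).sum_comp
      (fun z => if φ z = 0 then (1 : ℤ) else -1)
    exact h3.trans (sum_sgn h1)
  col j := by
    refine Function.Injective.bijective_of_finite fun b b' h => ?_
    have h2 : (b : F) * r (j / b) = b' * r (j / b') := congrArg Units.val h
    rcases eq_or_ne j 0 with rfl | hj
    · rw [zero_div, zero_div] at h2
      exact Units.ext (mul_right_cancel₀ (hr.ne 0) h2)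
    · have h3 : j / (b : F) ≠ 0 := div_ne_zero hj b.ne_zero
      have h4 : j / (b' : F) ≠ 0 := div_ne_zero hj b'.ne_zero
      have hb := b.ne_zero
      have hb' := b'.ne_zero
      have h5 : r (j / b) / (j / b) = r (j / b') / (j / b') := by
        rw [div_div_eq_mul_div, div_div_eq_mul_div, mul_comm, h2, mul_comm]
      have h6 := hr.perm _ _ h3 h4 h5
      rw [div_eq_div_iff hb hb'] at h6
      exact (Units.ext (mul_left_cancel₀ hj h6)).symm
  meet j k hjk := by
    have h0 : ∀ b : Fˣ, Units.mk0 ((b : F) * r (j / b)) (mul_ne_zero b.ne_zero (hr.ne _)) =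
        Units.mk0 ((b : F) * r (k / b)) (mul_ne_zero b.ne_zero (hr.ne _)) ↔ k / b = j / b + 1 := by
      intro b
      rw [Units.mk0_inj]
      constructor
      · intro h
        have h2 := mul_left_cancel₀ b.ne_zero h
        rcases hr.inj _ _ h2 with h3 | h3
        · rw [div_left_inj' b.ne_zero] at h3
          exact absurd h3.symm hjk
        · exact h3
      · intro h
        rw [h, hr.per]
    have hne : k - j ≠ 0 := sub_ne_zero.2 (Ne.symm hjk)
    refine ⟨⟨Units.mk0 (k - j) hne, ?_, ?_⟩, ?_⟩
    · refine (h0 _).2 ?_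
      rw [Units.val_mk0, div_eq_iff hne, add_mul, div_mul_cancel₀ _ hne]
      ring
    · intro b hb
      have h2 := (h0 b).1 hb
      apply Units.ext
      rw [Units.val_mk0]
      have hb0 := b.ne_zero
      rw [div_eq_iff hb0, add_mul, div_mul_cancel₀ _ hb0] at h2
      rw [h2]
      ring
    · intro b hb
      have h2 := (h0 b).1 hb
      rw [h2, map_add, h1]
      generalize φ (j / b) = a
      revert a
      decide

end Rotation

section Ext

variable {K F : Type} [Field K] [Field F]

open Classical in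
/-- the extension of the function by `t ^ 2 + t` -/
noncomputable def ext (f : K →+* F) (r : K → K) (t : F) : F :=
  if h : ∃ x, f x = t then f (r h.choose) else t ^ 2 + t

lemma ext_in (f : K →+* F) (r : K → K) (x : K) : ext f r (f x) = f (r x) := by
  unfold ext
  have h : ∃ y, f y = f x := ⟨x, rfl⟩
  rw [dif_pos h, f.injective h.choose_spec]

lemma ext_out (f : K →+* F) (r : K → K) {t : F} (h : ¬ ∃ x, f x = t) :
    ext f r t = t ^ 2 + t := by
  unfold ext
  rw [dif_neg h]

end Ext

section Extension

variable {K F : Type} [Field K] [Field F] [Fintype K] [Fintype F] [CharP K 2] [CharP F 2]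

omit [CharP K 2] in
/-- an element `t` of `F` with `t ^ 2 + t` in the subfield is in the subfield, if the degree is
odd -/
lemma mem_of_sq {f : K →+* F} {m s : ℕ} (hK : Fintype.card K = 2 ^ m)
    (hF : Fintype.card F = (2 ^ m) ^ s) (hs : Odd s) {t : F} {c : K} (h : t ^ 2 + t = f c) :
    ∃ x, f x = t := by
  have hfr : ∀ (n : ℕ) (a b : F), (a + b) ^ 2 ^ n = a ^ 2 ^ n + b ^ 2 ^ n := fun n a b =>
    add_pow_char_pow a b 2 n
  have h1 : (t ^ 2 ^ m) ^ 2 + t ^ 2 ^ m = t ^ 2 + t := by
    rw [← pow_mul, mul_comm, pow_mul, ← hfr, h, ← map_pow, ← hK, FiniteField.pow_card]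
  have h2 : t ^ 2 ^ m = t ∨ t ^ 2 ^ m = t + 1 := by
    have h3 : (t ^ 2 ^ m - t) * (t ^ 2 ^ m - (t + 1)) = 0 := by
      have h4 : (2 : F) = 0 := CharTwo.two_eq_zero
      linear_combination h1 + (-(t ^ 2 ^ m) * t - t ^ 2 ^ m + t ^ 2 + t) * h4
    rcases mul_eq_zero.1 h3 with h4 | h4
    · exact Or.inl (sub_eq_zero.1 h4)
    · exact Or.inr (sub_eq_zero.1 h4)
  rcases h2 with h2 | h2
  · -- the roots of `X ^ Q - X` are the elements of `K`
    by_contra hcon
    push Not at hcon
    have hQ : 1 < 2 ^ m := by rw [← hK]; exact Fintype.one_lt_card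
    set p : Polynomial F := Polynomial.X ^ 2 ^ m - Polynomial.X with hp
    have hp0 : p ≠ 0 := FiniteField.X_pow_card_sub_X_ne_zero F hQ
    have hdeg : p.natDegree = 2 ^ m := FiniteField.X_pow_card_sub_X_natDegree_eq F hQ
    classical
    have hsub : insert t (univ.image f) ⊆ p.roots.toFinset := by
      intro x hx
      rw [Multiset.mem_toFinset, Polynomial.mem_roots hp0, Polynomial.IsRoot.def]
      simp only [hp, Polynomial.eval_sub, Polynomial.eval_pow, Polynomial.eval_X]
      rw [mem_insert, mem_image] at hx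
      rcases hx with rfl | ⟨y, -, rfl⟩
      · rw [h2, sub_self]
      · rw [← map_pow, ← hK, FiniteField.pow_card, sub_self]
    have hc := card_le_card hsub
    rw [card_insert_of_notMem (by
      rw [mem_image]
      rintro ⟨y, -, hy⟩
      exact hcon y hy), card_image_of_injective _ f.injective, card_univ, hK] at hc
    have hc2 := (Multiset.toFinset_card_le p.roots).trans (Polynomial.card_roots' p)
    omega
  · exfalso
    have h3 : ∀ i : ℕ, t ^ (2 ^ m) ^ i = t + i := by
      intro i
      induction i with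
      | zero => simp
      | succ i ih =>
        rw [pow_succ, pow_mul, ih, hfr, h2, ← Nat.cast_pow]
        have h4 : ((i ^ 2 ^ m : ℕ) : F) = i := by
          rcases Nat.even_or_odd i with h5 | h5
          · have h6 : Even (i ^ 2 ^ m) := h5.pow_of_ne_zero (by positivity)
            rw [(CharP.cast_eq_zero_iff F 2 _).2 h6.two_dvd,
              (CharP.cast_eq_zero_iff F 2 _).2 h5.two_dvd]
          · have h6 : Odd (i ^ 2 ^ m) := h5.pow
            obtain ⟨u, hu⟩ := h6
            obtain ⟨w, hw⟩ := h5
            rw [hu, hw]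
            push_cast
            rw [CharTwo.two_eq_zero, zero_mul, zero_mul]
        rw [h4]
        push_cast
        ring
    have h4 := h3 s
    rw [← hF, FiniteField.pow_card] at h4
    obtain ⟨u, hu⟩ := hs
    rw [hu] at h4
    push_cast at h4
    rw [CharTwo.two_eq_zero, zero_mul, zero_add] at h4
    exact one_ne_zero (left_eq_add.1 h4)

theorem PA.ext {f : K →+* F} {m s : ℕ} (hK : Fintype.card K = 2 ^ m)
    (hF : Fintype.card F = (2 ^ m) ^ s) (hs : Odd s) {r : K → K} (hr : PA r) :
    PA (Pool.Agent.Y728.CB.ext f r) := by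
  have h4 : (2 : F) = 0 := CharTwo.two_eq_zero
  have hin : ∀ t : F, (∃ x, f x = t + 1) ↔ ∃ x, f x = t := by
    intro t
    constructor
    · rintro ⟨x, hx⟩
      exact ⟨x - 1, by rw [map_sub, hx, map_one]; ring⟩
    · rintro ⟨x, hx⟩
      exact ⟨x + 1, by rw [map_add, hx, map_one]⟩
  have hout : ∀ t : F, (¬ ∃ x, f x = t) → ¬ ∃ x, f x = t ^ 2 + t := fun t ht ⟨c, hc⟩ =>
    ht (mem_of_sq hK hF hs hc.symm)
  have ht0 : ∀ t : F, (¬ ∃ x, f x = t) → t ≠ 0 := fun t ht h => ht ⟨0, by rw [map_zero, h]⟩
  constructor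
  · intro t
    by_cases h : ∃ x, f x = t
    · obtain ⟨x, rfl⟩ := h
      rw [ext_in]
      exact (map_ne_zero f).2 (hr.ne x)
    · rw [ext_out f r h]
      intro h0
      exact hout t h ⟨0, by rw [map_zero, h0]⟩
  · intro t
    by_cases h : ∃ x, f x = t
    · obtain ⟨x, rfl⟩ := h
      rw [← map_one f, ← map_add, ext_in, ext_in, hr.per]
    · rw [ext_out f r h, ext_out f r (fun h' => h ((hin t).1 h'))]
      linear_combination (t + 1) * h4
  · intro t u htu
    by_cases h : ∃ x, f x = t
    · obtain ⟨x, rfl⟩ := h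
      rw [ext_in] at htu
      by_cases h' : ∃ y, f y = u
      · obtain ⟨y, rfl⟩ := h'
        rw [ext_in] at htu
        rcases hr.inj _ _ (f.injective htu) with h5 | h5
        · left; rw [h5]
        · right; rw [h5, map_add, map_one]
      · rw [ext_out f r h'] at htu
        exact absurd ⟨_, htu⟩ (hout u h')
    · rw [ext_out f r h] at htu
      by_cases h' : ∃ y, f y = u
      · obtain ⟨y, rfl⟩ := h'
        rw [ext_in] at htu
        exact absurd ⟨_, htu.symm⟩ (hout t h)
      · rw [ext_out f r h'] at htu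
        have h3 : (u - t) * (u - (t + 1)) = 0 := by
          linear_combination -htu + (-u * t + t ^ 2 - u + t) * h4
        rcases mul_eq_zero.1 h3 with h5 | h5
        · exact Or.inl (sub_eq_zero.1 h5)
        · exact Or.inr (sub_eq_zero.1 h5)
  · intro t u ht hu htu
    have hdiv : ∀ w : F, (¬ ∃ x, f x = w) → (w ^ 2 + w) / w = w + 1 := by
      intro w hw
      have := ht0 w hw
      field_simp
    by_cases h : ∃ x, f x = t
    · obtain ⟨x, rfl⟩ := h
      rw [ext_in] at htu
      by_cases h' : ∃ y, f y = u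
      · obtain ⟨y, rfl⟩ := h'
        rw [ext_in, ← map_div₀, ← map_div₀] at htu
        rw [hr.perm x y ((map_ne_zero f).1 ht) ((map_ne_zero f).1 hu) (f.injective htu)]
      · rw [ext_out f r h', hdiv u h', ← map_div₀] at htu
        exact absurd ((hin u).1 ⟨_, htu⟩) h'
    · rw [ext_out f r h, hdiv t h] at htu
      by_cases h' : ∃ y, f y = u
      · obtain ⟨y, rfl⟩ := h'
        rw [ext_in, ← map_div₀] at htu
        exact absurd ((hin t).1 ⟨_, htu.symm⟩) h
      · rw [ext_out f r h', hdiv u h'] at htu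
        exact add_right_cancel htu

end Extension

end Pool.Agent.Y728.CB
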