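import Pool.Agent.Y728.CB.Fld

/-!
# The field with 16 elements
-/

set_option autoImplicit false

namespace Pool.Agent.Y728.CB

/-- the field with 16 elements: the number with the binary digits `a₃ a₂ a₁ a₀` is
`a₀ + a₁ x + a₂ x² + a₃ x³` modulo `x⁴ + x + 1` -/
structure K16 where
  /-- the digits -/
  v : Fin 16
deriving DecidableEq

namespace K16

/-- digits -/
def of (n : ℕ) : K16 := ⟨⟨n % 16, Nat.mod_lt _ (by norm_num)⟩⟩

/-- equivalence with `Fin 16` -/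
def eqv : K16 ≃ Fin 16 := ⟨K16.v, K16.mk, fun _ => rfl, fun _ => rfl⟩

instance : Fintype K16 := Fintype.ofEquiv (Fin 16) eqv.symm

/-- sum -/
def add (a b : K16) : K16 := of (Nat.xor a.v.val b.v.val)

/-- product, from the table -/
def mul (a b : K16) : K16 := of (Nat.shiftRight 0xa5783ce1b4692df05ba48679c23d1fe07ae36bf258c149d0843fd16a2e957bc0386d92c74f1ae5b0c6b1285f394ed7a0e7f6c5d4a3b28190192a7f4cd5e6b380bc5243ad618f9e70428ef93517dbac6063c914be8d27fa509d15ae26fb73c8402147ed8b9afc5630df9b5713eca86420fedcba98765432100000000000000000 (4 * (16 * a.v.val + b.v.val)))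

/-- inverse, from the table -/
def inv (a : K16) : K16 := of (Nat.shiftRight 0x834a5c2f67bde910 (4 * a.v.val))

/-- the function `r`, from the table -/
def r (a : K16) : K16 := of (Nat.shiftRight 0xee11dd775588aaff (4 * a.v.val))

instance : Zero K16 := ⟨of 0⟩
instance : One K16 := ⟨of 1⟩
instance : Add K16 := ⟨add⟩
instance : Mul K16 := ⟨mul⟩
instance : Neg K16 := ⟨id⟩
instance : Inv K16 := ⟨inv⟩

set_option maxRecDepth 100000

lemma all3 (p : Fin 16 → Fin 16 → Fin 16 → Prop) (h : ∀ a b c, p a b c) :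
    ∀ a b c : K16, p a.v b.v c.v := fun a b c => h a.v b.v c.v

lemma add_assoc' : ∀ a b c : Fin 16, (⟨a⟩ + ⟨b⟩ + ⟨c⟩ : K16) = ⟨a⟩ + (⟨b⟩ + ⟨c⟩) := by
  decide +kernel
lemma add_comm' : ∀ a b : Fin 16, (⟨a⟩ + ⟨b⟩ : K16) = ⟨b⟩ + ⟨a⟩ := by decide +kernel
lemma zero_add' : ∀ a : Fin 16, (0 + ⟨a⟩ : K16) = ⟨a⟩ := by decide +kernel
lemma add_self' : ∀ a : Fin 16, (⟨a⟩ + ⟨a⟩ : K16) = 0 := by decide +kernel
lemma mul_assoc' : ∀ a b c : Fin 16, (⟨a⟩ * ⟨b⟩ * ⟨c⟩ : K16) = ⟨a⟩ * (⟨b⟩ * ⟨c⟩) := by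
  decide +kernel
lemma mul_comm' : ∀ a b : Fin 16, (⟨a⟩ * ⟨b⟩ : K16) = ⟨b⟩ * ⟨a⟩ := by decide +kernel
lemma one_mul' : ∀ a : Fin 16, (1 * ⟨a⟩ : K16) = ⟨a⟩ := by decide +kernel
lemma zero_mul' : ∀ a : Fin 16, (0 * ⟨a⟩ : K16) = 0 := by decide +kernel
lemma left_distrib' : ∀ a b c : Fin 16, (⟨a⟩ * (⟨b⟩ + ⟨c⟩) : K16) = ⟨a⟩ * ⟨b⟩ + ⟨a⟩ * ⟨c⟩ := by
  decide +kernel
lemma mul_inv' : ∀ a : Fin 16, (⟨a⟩ : K16) ≠ 0 → (⟨a⟩ * (⟨a⟩ : K16)⁻¹ : K16) = 1 := by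
  decide +kernel
lemma inv_zero' : ((0 : K16)⁻¹) = 0 := by decide +kernel
lemma ne' : (0 : K16) ≠ 1 := by decide +kernel

instance : CommRing K16 where
  add_assoc a b c := add_assoc' a.v b.v c.v
  zero_add a := zero_add' a.v
  add_zero a := (add_comm' a.v (0 : K16).v).trans (zero_add' a.v)
  add_comm a b := add_comm' a.v b.v
  neg_add_cancel a := add_self' a.v
  nsmul := nsmulRec
  zsmul := zsmulRec
  mul_assoc a b c := mul_assoc' a.v b.v c.v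
  mul_comm a b := mul_comm' a.v b.v
  one_mul a := one_mul' a.v
  mul_one a := (mul_comm' a.v (1 : K16).v).trans (one_mul' a.v)
  zero_mul a := zero_mul' a.v
  mul_zero a := (mul_comm' a.v (0 : K16).v).trans (zero_mul' a.v)
  left_distrib a b c := left_distrib' a.v b.v c.v
  right_distrib a b c := by
    have h1 := left_distrib' c.v a.v b.v
    have h2 : ∀ x y : K16, x * y = y * x := fun x y => mul_comm' x.v y.v
    rw [h2, h2 a c, h2 b c]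
    exact h1

instance : Field K16 where
  exists_pair_ne := ⟨0, 1, ne'⟩
  mul_inv_cancel a ha := mul_inv' a.v ha
  inv_zero := inv_zero'
  nnqsmul := _
  nnqsmul_def := fun _ _ => rfl
  qsmul := _
  qsmul_def := fun _ _ => rfl

instance : CharP K16 2 := CharTwo.of_one_ne_zero_of_two_eq_zero (Ne.symm ne') (by
  have h : (1 : K16) + 1 = 0 := add_self' (1 : K16).v
  rw [← one_add_one_eq_two]
  exact h)

lemma card : Fintype.card K16 = 2 ^ 4 := by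
  rw [Fintype.card_congr eqv, Fintype.card_fin]
  norm_num

lemma r_ne : ∀ a : Fin 16, r ⟨a⟩ ≠ 0 := by decide +kernel
lemma r_per : ∀ a : Fin 16, r (⟨a⟩ + 1) = r ⟨a⟩ := by decide +kernel
lemma r_inj : ∀ a b : Fin 16, r ⟨a⟩ = r ⟨b⟩ → (⟨b⟩ : K16) = ⟨a⟩ ∨ (⟨b⟩ : K16) = ⟨a⟩ + 1 := by
  decide +kernel
lemma r_perm : ∀ a b : Fin 16, (⟨a⟩ : K16) ≠ 0 → (⟨b⟩ : K16) ≠ 0 →
    r ⟨a⟩ * (⟨a⟩ : K16)⁻¹ = r ⟨b⟩ * (⟨b⟩ : K16)⁻¹ → (⟨a⟩ : K16) = ⟨b⟩ := by
  decide +kernel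

theorem pa : PA r where
  ne a := r_ne a.v
  per a := r_per a.v
  inj a b h := r_inj a.v b.v h
  perm a b ha hb h := r_perm a.v b.v ha hb (by rw [div_eq_mul_inv, div_eq_mul_inv] at h; exact h)

end K16

end Pool.Agent.Y728.CB
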